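import Pool.Agent.W269.BL.Stm

set_option autoImplicit false

open Polynomial Pool.Agent.W269.BL

namespace Pool.Agent.W655.BL.CNT

universe u

theorem main : StmCNT.{u} := by
  intro K _ _ S h₀ hS m hm
  set k := m - S.natDegree with hk
  have hfin : ∀ l : ℕ, Finite (degreeLT K l) := fun l =>
    Finite.of_equiv _ (degreeLTEquiv K l).symm.toEquiv
  have hcard : ∀ l : ℕ, Nat.card (degreeLT K l) = Fintype.card K ^ l := fun l => by
    rw [Nat.card_congr (degreeLTEquiv K l).toEquiv, Nat.card_fun, Nat.card_eq_fintype_card,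
      Nat.card_eq_fintype_card, Fintype.card_fin]
  have hsetfin : {h : K[X] | h.Monic ∧ h.natDegree = m ∧ S ∣ h - h₀}.Finite := by
    have h1 : ((degreeLT K (m + 1) : Submodule K K[X]) : Set K[X]).Finite := by
      have := hfin (m + 1)
      exact Set.toFinite _
    refine h1.subset ?_
    rintro h ⟨h2, h3, -⟩
    rw [SetLike.mem_coe, mem_degreeLT, ← h3]
    exact degree_le_natDegree.trans_lt (by exact_mod_cast Nat.lt_succ_self _)
  let f : degreeLT K k → K[X] := fun p => h₀ %ₘ S + S * (X ^ k + (p : K[X]))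
  have hinj : Function.Injective f := by
    intro p q hpq
    have h1 : h₀ %ₘ S + S * (X ^ k + (p : K[X])) = h₀ %ₘ S + S * (X ^ k + (q : K[X])) := hpq
    have h2 := add_left_cancel h1
    have h3 := mul_left_cancel₀ hS.ne_zero h2
    exact Subtype.ext (add_left_cancel h3)
  rw [← hcard k, ← Set.ncard_univ, ← Set.ncard_image_of_injective _ hinj]
  refine Set.ncard_le_ncard ?_ hsetfin
  rintro _ ⟨p, -, rfl⟩
  have hp : (p : K[X]).degree < (k : ℕ) := mem_degreeLT.1 p.2
  have hmon : (X ^ k + (p : K[X])).Monic := monic_X_pow_add hp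
  have hdeg : (X ^ k + (p : K[X])).natDegree = k := by
    rw [natDegree_eq_of_degree_eq_some]
    rw [degree_add_eq_left_of_degree_lt (by rw [degree_X_pow]; exact hp), degree_X_pow]
  have hSm : (S * (X ^ k + (p : K[X]))).Monic := hS.mul hmon
  have hlt : (h₀ %ₘ S).degree < (S * (X ^ k + (p : K[X]))).degree := by
    refine (degree_modByMonic_lt h₀ hS).trans_le ?_
    exact degree_le_mul_left _ hmon.ne_zero
  refine ⟨hSm.add_of_right hlt, ?_, ?_⟩
  · change (h₀ %ₘ S + S * (X ^ k + (p : K[X]))).natDegree = m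
    rw [natDegree_add_eq_right_of_degree_lt hlt, hS.natDegree_mul hmon, hdeg]
    omega
  · change S ∣ h₀ %ₘ S + S * (X ^ k + (p : K[X])) - h₀
    have h1 : h₀ %ₘ S + S * (h₀ /ₘ S) = h₀ := modByMonic_add_div h₀ S
    refine ⟨X ^ k + (p : K[X]) - h₀ /ₘ S, ?_⟩
    linear_combination h1

end Pool.Agent.W655.BL.CNT
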