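import Pool.Agent.W269.BL.Stm

set_option autoImplicit false

open Polynomial Pool.Agent.W269.BL

namespace Pool.Agent.W655.BL.ED

universe u

section
variable {K : Type u} [Field K]

lemma cop {P Q : K[X]} (hP : P.Monic) (hQ : Q.Monic) (hPi : Irreducible P) (hQi : Irreducible Q)
    (h : P ≠ Q) : IsCoprime P Q := by
  refine (hPi.coprime_iff_not_dvd).2 fun hd => h ?_
  exact eq_of_monic_of_associated hP hQ (hPi.associated_of_dvd hQi hd)

lemma crt (s : Finset K[X]) (hs : ∀ Q ∈ s, Q.Monic ∧ Irreducible Q) (d : K[X] → K[X]) :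
    ∃ D : K[X], ∀ Q ∈ s, Q ∣ D - d Q := by
  classical
  induction s using Finset.induction_on with
  | empty => exact ⟨0, by simp⟩
  | insert Q s hQs ih =>
    obtain ⟨D, hD⟩ := ih fun Q' hQ' => hs Q' (Finset.mem_insert_of_mem hQ')
    have hQ := hs Q (Finset.mem_insert_self _ _)
    have hc : IsCoprime Q (∏ Q' ∈ s, Q') := by
      refine IsCoprime.prod_right fun Q' hQ' => ?_
      have h' := hs Q' (Finset.mem_insert_of_mem hQ')
      exact cop hQ.1 h'.1 hQ.2 h'.2 fun he => hQs (he ▸ hQ')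
    obtain ⟨a, c, hac⟩ := hc
    refine ⟨D + c * (∏ Q' ∈ s, Q') * (d Q - D), fun Q' hQ' => ?_⟩
    rcases Finset.mem_insert.1 hQ' with rfl | hQ'
    · refine ⟨(D - d Q') * a, ?_⟩
      linear_combination (d Q' - D) * hac
    · have h1 := hD Q' hQ'
      have h2 : Q' ∣ c * (∏ Q' ∈ s, Q') * (d Q - D) :=
        ((Finset.dvd_prod_of_mem (fun Q => Q) hQ').mul_left c).mul_right _
      have h3 : D + c * (∏ Q' ∈ s, Q') * (d Q - D) - d Q' =
        (D - d Q') + c * (∏ Q' ∈ s, Q') * (d Q - D) := by ring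
      rw [h3]
      exact dvd_add h1 h2

lemma rs_one (M : K[X]) : rs 1 M = 1 := by
  rw [rs_comm]
  have h := rs_C (f := M) (1 : K)
  rw [C_1] at h
  rw [h]
  simp

lemma rs_congr_irr {Q M M' : K[X]} (hQ : Q.Monic) (h : Q ∣ M - M') : rs Q M = rs Q M' := by
  obtain ⟨k, hk⟩ := h
  have h1 : M = M' + Q * k := by linear_combination hk
  rw [h1, rs_add_mul hQ]

lemma ind (C : K[X] → Prop) (h1 : C 1)
    (hm : ∀ Q g : K[X], Q.Monic → Irreducible Q → g.Monic → C g → C (Q * g)) :
    ∀ g : K[X], g.Monic → C g := by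
  intro g
  induction hn : g.natDegree using Nat.strong_induction_on generalizing g with
  | _ n ih =>
    intro hg
    by_cases hu : IsUnit g
    · rw [hg.isUnit_iff.1 hu] 
      exact h1
    · obtain ⟨Q, hQ, hQi, g', rfl⟩ := exists_monic_irreducible_factor g hu
      have hg' : g'.Monic := hQ.of_mul_monic_left hg
      refine hm Q g' hQ hQi hg' (ih g'.natDegree ?_ g' rfl hg')
      rw [← hn, hQ.natDegree_mul hg']
      have := hQi.natDegree_pos
      omega

lemma rs_congr {g M M' : K[X]} (hg : g.Monic)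
    (h : ∀ Q : K[X], Q.Monic → Irreducible Q → Q ∣ g → Q ∣ M - M') : rs g M = rs g M' := by
  revert h
  refine ind (fun g => (∀ Q : K[X], Q.Monic → Irreducible Q → Q ∣ g → Q ∣ M - M') →
    rs g M = rs g M') ?_ ?_ g hg
  · intro _
    rw [rs_one, rs_one]
  · intro Q g' hQ hQi hg' ih h
    rw [rs_mul_left hQ hg', rs_mul_left hQ hg', rs_congr_irr hQ (h Q hQ hQi (dvd_mul_right _ _)),
      ih fun Q' h1 h2 h3 => h Q' h1 h2 (h3.mul_left _)]

lemma rs_ne {g M : K[X]} (hg : g.Monic)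
    (h : ∀ Q : K[X], Q.Monic → Irreducible Q → Q ∣ g → ¬ Q ∣ M) : rs g M ≠ 0 := by
  revert h
  refine ind (fun g => (∀ Q : K[X], Q.Monic → Irreducible Q → Q ∣ g → ¬ Q ∣ M) →
    rs g M ≠ 0) ?_ ?_ g hg
  · intro _
    rw [rs_one]
    exact one_ne_zero
  · intro Q g' hQ hQi hg' ih h
    rw [rs_mul_left hQ hg']
    refine mul_ne_zero ?_ (ih fun Q' h1 h2 h3 => h Q' h1 h2 (h3.mul_left _))
    rw [rs_ne_zero_iff hQ]
    exact (hQi.coprime_iff_not_dvd).2 (h Q hQ hQi (dvd_mul_right _ _))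

/-- A class modulo `Q` which avoids the zero classes. -/
lemma avoid [Fintype K] (n : ℕ) (A B : Fin n → K[X]) (Q : K[X]) (hQ : Irreducible Q)
    (hn : n < Fintype.card K ^ Q.natDegree) :
    ∃ d : K[X], ∀ j, ¬ Q ∣ A j → ¬ Q ∣ A j ^ 2 * d - B j := by
  by_contra hcon
  push Not at hcon
  have hfin : ∀ l : ℕ, Finite (degreeLT K l) := fun l =>
    Finite.of_equiv _ (degreeLTEquiv K l).symm.toEquiv
  have hcard : ∀ l : ℕ, Nat.card (degreeLT K l) = Fintype.card K ^ l := fun l => by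
    rw [Nat.card_congr (degreeLTEquiv K l).toEquiv, Nat.card_fun, Nat.card_eq_fintype_card,
      Nat.card_eq_fintype_card, Fintype.card_fin]
  choose f hf using fun d : degreeLT K Q.natDegree => hcon (d : K[X])
  have hinj : Function.Injective f := by
    intro d d' hdd
    have h1 := (hf d).2
    have h2 := (hf d').2
    rw [← hdd] at h2
    have h3 : Q ∣ A (f d) ^ 2 * ((d : K[X]) - d') := by
      have := dvd_sub h1 h2
      have e : A (f d) ^ 2 * (d : K[X]) - B (f d) - (A (f d) ^ 2 * (d' : K[X]) - B (f d)) =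
        A (f d) ^ 2 * ((d : K[X]) - d') := by ring
      rwa [e] at this
    have h4 : Q ∣ (d : K[X]) - d' := by
      rcases hQ.prime.dvd_or_dvd h3 with h | h
      · exact absurd (hQ.prime.dvd_of_dvd_pow h) (hf d).1
      · exact h
    have h5 : ((d : K[X]) - d').degree < Q.degree := by
      have h6 : ((d - d' : degreeLT K Q.natDegree) : K[X]).degree < (Q.natDegree : ℕ) :=
        mem_degreeLT.1 (d - d').2
      rw [degree_eq_natDegree hQ.ne_zero]
      exact h6
    have h7 := eq_zero_of_dvd_of_degree_lt h4 h5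
    exact Subtype.ext (sub_eq_zero.1 h7)
  have h8 := Nat.card_le_card_of_injective f hinj
  rw [hcard, Nat.card_eq_fintype_card, Fintype.card_fin] at h8
  omega

end

theorem main : StmED1.{u} → StmED.{u} := by
  classical
  intro hED1 K _ _ _ h2 n A b y P τ hA hb hy hy0 hQn hP hτ
  set l : Fin n → K[X] := fun j => A j * y + C (b j) with hl
  have hlm : ∀ j, (l j).Monic := by
    intro j
    have h1 : (A j * y).Monic := (hA j).mul hy
    refine h1.add_of_left ?_
    refine (degree_C_le).trans_lt ?_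
    rw [degree_eq_natDegree h1.ne_zero, (hA j).natDegree_mul hy]
    exact_mod_cast (by omega : 0 < (A j).natDegree + y.natDegree)
  have hndA : ∀ Q : K[X], Irreducible Q → ∀ j, Q ∣ l j → ¬ Q ∣ A j := by
    intro Q hQ j h1 h3
    have h4 : Q ∣ C (b j) := by
      have h5 : C (b j) = l j - A j * y := by simp [hl]
      rw [h5]
      exact dvd_sub h1 (h3.mul_right _)
    exact hQ.not_isUnit (isUnit_of_dvd_unit h4 (isUnit_C.2 (isUnit_iff_ne_zero.2 (hb j))))
  have hFne : (∏ j, l j) ≠ 0 := Finset.prod_ne_zero_iff.2 fun j _ => (hlm j).ne_zero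
  have hfinS : {Q : K[X] | Q.Monic ∧ Irreducible Q ∧ Q ∣ ∏ j, l j}.Finite := by
    have hfin : Finite (degreeLT K ((∏ j, l j).natDegree + 1)) :=
      Finite.of_equiv _ (degreeLTEquiv K _).symm.toEquiv
    have h1 : ((degreeLT K ((∏ j, l j).natDegree + 1) : Submodule K K[X]) : Set K[X]).Finite :=
      Set.toFinite _
    refine h1.subset ?_
    rintro Q ⟨-, -, h4⟩
    rw [SetLike.mem_coe, mem_degreeLT]
    refine (degree_le_natDegree).trans_lt ?_
    have h5 := natDegree_le_of_dvd h4 hFne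
    exact_mod_cast Nat.lt_succ_of_le h5
  set s : Finset K[X] := hfinS.toFinset with hs
  have hsm : ∀ Q, Q ∈ s ↔ Q.Monic ∧ Irreducible Q ∧ Q ∣ ∏ j, l j := fun Q => by
    rw [hs, Set.Finite.mem_toFinset]; rfl
  have hsl : ∀ Q : K[X], Q.Monic → Irreducible Q → ∀ j, Q ∣ l j → Q ∈ s := fun Q h1 h3 j h4 =>
    (hsm Q).2 ⟨h1, h3, h4.trans (Finset.dvd_prod_of_mem l (Finset.mem_univ j))⟩
  -- the avoiding classes
  have hav : ∀ Q : K[X], Irreducible Q → Q ∣ ∏ j, l j →
      ∃ d : K[X], ∀ j, ¬ Q ∣ A j → ¬ Q ∣ A j ^ 2 * d - C (b j) * derivative (A j) := by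
    intro Q hQ hd
    refine avoid n A (fun j => C (b j) * derivative (A j)) Q hQ ?_
    by_contra hcon
    obtain ⟨j, -, hj⟩ := (hQ.prime.dvd_finsetProd_iff _).1 hd
    exact hndA Q hQ j hj (hQn Q hQ (not_lt.1 hcon) j)
  have hav' : ∀ Q : K[X], ∃ d : K[X], Irreducible Q → Q ∣ ∏ j, l j →
      ∀ j, ¬ Q ∣ A j → ¬ Q ∣ A j ^ 2 * d - C (b j) * derivative (A j) := by
    intro Q
    by_cases h : Irreducible Q ∧ Q ∣ ∏ j, l j
    · obtain ⟨d, hd⟩ := hav Q h.1 h.2
      exact ⟨d, fun _ _ => hd⟩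
    · exact ⟨0, fun h1 h3 => absurd ⟨h1, h3⟩ h⟩
  choose d hd using hav'
  obtain ⟨D1, hD1⟩ := crt s (fun Q hQ => ⟨((hsm Q).1 hQ).1, ((hsm Q).1 hQ).2.1⟩) d
  -- the cofactors
  choose g hg using fun j => (hP j).2.2.1
  have hgm : ∀ j, (g j).Monic := fun j => by
    have h1 : (P j * g j).Monic := by rw [← hg j]; exact hlm j
    exact (hP j).1.of_mul_monic_left h1
  have hPg : ∀ i j, ¬ P i ∣ g j := by
    intro i j h1
    by_cases hij : i = j
    · subst hij
      refine (hP i).2.2.2.1 ?_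
      rw [hg i, pow_two]
      exact mul_dvd_mul_left _ h1
    · refine (hP i).2.2.2.2 j (fun h => hij h.symm) ?_
      rw [hg j]
      exact h1.mul_left _
  have hgl : ∀ j, g j ∣ l j := fun j => ⟨P j, by rw [mul_comm]; exact hg j⟩
  have hne : ∀ j, rs (g j) (A j ^ 2 * D1 - C (b j) * derivative (A j)) ≠ 0 := by
    intro j
    refine rs_ne (hgm j) fun Q hQm hQi hQg hQM => ?_
    have hQl : Q ∣ l j := hQg.trans (hgl j)
    have hQs := hsl Q hQm hQi j hQl
    refine hd Q hQi ((hsm Q).1 hQs).2.2 j (hndA Q hQi j hQl) ?_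
    have h3 : A j ^ 2 * d Q - C (b j) * derivative (A j) =
      (A j ^ 2 * D1 - C (b j) * derivative (A j)) - A j ^ 2 * (D1 - d Q) := by ring
    rw [h3]
    exact dvd_sub hQM ((hD1 Q hQs).mul_left _)
  -- the classes at the private primes
  have hz : ∀ j, ∃ e : K[X], quadraticChar K (rs (P j)
      (A j ^ 2 * e - C (b j) * derivative (A j))) =
      τ j * quadraticChar K (rs (g j) (A j ^ 2 * D1 - C (b j) * derivative (A j))) := by
    intro j
    obtain ⟨z, hz⟩ := hED1 K h2 (P j) (hP j).1 (hP j).2.1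
      (τ j * quadraticChar K (rs (g j) (A j ^ 2 * D1 - C (b j) * derivative (A j)))) (by
        rcases hτ j with h1 | h1 <;> rcases quadraticChar_dichotomy (hne j) with h3 | h3 <;>
          rw [h1, h3] <;> norm_num)
    have hcop : IsCoprime (P j) (A j ^ 2) := by
      refine IsCoprime.pow_right ?_
      exact ((hP j).2.1.coprime_iff_not_dvd).2 (hndA _ (hP j).2.1 j (hP j).2.2.1)
    obtain ⟨u, v, huv⟩ := hcop
    refine ⟨v * (z + C (b j) * derivative (A j)), ?_⟩
    rw [← hz]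
    congr 1
    refine rs_congr_irr (hP j).1 ⟨-u * (z + C (b j) * derivative (A j)), ?_⟩
    linear_combination (z + C (b j) * derivative (A j)) * huv
  choose e he using hz
  -- the final class
  have hPinj : ∀ i j, P i = P j → i = j := by
    intro i j h1
    by_contra hij
    refine (hP i).2.2.2.2 j (fun h => hij h.symm) ?_
    rw [h1]
    exact (hP j).2.2.1
  obtain ⟨D0, hD0⟩ := crt s (fun Q hQ => ⟨((hsm Q).1 hQ).1, ((hsm Q).1 hQ).2.1⟩)
    (fun Q => if h : ∃ j, Q = P j then e h.choose else D1)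
  refine ⟨∏ Q ∈ s, Q, monic_prod_of_monic _ _ fun Q hQ => ((hsm Q).1 hQ).1, ?_, D0, ?_⟩
  · refine Finset.squarefree_prod_of_pairwise_isCoprime ?_ fun Q hQ =>
      ((hsm Q).1 hQ).2.1.squarefree
    intro Q hQ Q' hQ' hne
    have h1 := (hsm Q).1 hQ
    have h3 := (hsm Q').1 hQ'
    exact (cop h1.1 h3.1 h1.2.1 h3.2.1 hne).isRelPrime
  · intro D hD j
    have hDQ : ∀ Q ∈ s, Q ∣ D - D0 := fun Q hQ =>
      (Finset.dvd_prod_of_mem (fun Q => Q) hQ).trans hD
    have hlj : A j * y + C (b j) = P j * g j := hg j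
    rw [hlj, rs_mul_left (hP j).1 (hgm j), map_mul]
    have hPs : P j ∈ s := hsl _ (hP j).1 (hP j).2.1 j (hP j).2.2.1
    have h1 : rs (P j) (A j ^ 2 * D - C (b j) * derivative (A j)) =
        rs (P j) (A j ^ 2 * e j - C (b j) * derivative (A j)) := by
      refine rs_congr_irr (hP j).1 ?_
      have h3 := hD0 (P j) hPs
      have hex : ∃ i, P j = P i := ⟨j, rfl⟩
      rw [dif_pos hex] at h3
      have h4 : hex.choose = j := (hPinj _ _ hex.choose_spec).symm
      rw [h4] at h3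
      have h5 : A j ^ 2 * D - C (b j) * derivative (A j) -
        (A j ^ 2 * e j - C (b j) * derivative (A j)) =
        A j ^ 2 * ((D - D0) + (D0 - e j)) := by ring
      rw [h5]
      exact (dvd_add (hDQ _ hPs) h3).mul_left _
    have h6 : rs (g j) (A j ^ 2 * D - C (b j) * derivative (A j)) =
        rs (g j) (A j ^ 2 * D1 - C (b j) * derivative (A j)) := by
      refine rs_congr (hgm j) fun Q hQm hQi hQg => ?_
      have hQs := hsl Q hQm hQi j (hQg.trans (hgl j))
      have h3 := hD0 Q hQs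
      have hex : ¬ ∃ i, Q = P i := by
        rintro ⟨i, rfl⟩
        exact hPg i j hQg
      rw [dif_neg hex] at h3
      have h5 : A j ^ 2 * D - C (b j) * derivative (A j) -
        (A j ^ 2 * D1 - C (b j) * derivative (A j)) =
        A j ^ 2 * ((D - D0) + (D0 - D1)) := by ring
      rw [h5]
      exact (dvd_add (hDQ _ hQs) h3).mul_left _
    rw [h1, h6, he j]
    rcases quadraticChar_dichotomy (hne j) with h3 | h3 <;> rw [h3] <;> ring

end Pool.Agent.W655.BL.ED
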